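import Pool.Agent.Y506.RG.Stm
import Pool.Agent.Y809.FF.Jac

/-!
# Change of variables for the general thickening map
-/

set_option autoImplicit false

namespace Pool.Agent.Y809.RG

open MeasureTheory Set Filter Topology
open scoped ENNReal InnerProductSpace
open Pool.Agent.W695.KH (Eu)
open Pool.Agent.Y506.FF (Pair mat pw prj)
open Pool.Agent.Y506.RG
open Pool.Agent.Y809.FF (Pc Pc_apply prj_sub inner_sub_prj inner_eq_sum prj_coord ATA)

/-- the transport is strictly increasing in the first variable -/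
theorem mono_t {f : ℝ → ℝ} {l C : ℝ} {T p k : ℝ → ℝ → ℝ} (h : TM f l C T p k) {a : ℝ}
    (ha : |a| < l) : StrictMono fun t => T t a := by
  have hd : ∀ t, HasDerivAt (fun t => T t a) (p t a) t := by
    intro t
    have h1 := h.der t a ha
    have h2 : HasDerivAt (fun t : ℝ => ((t, a) : ℝ × ℝ)) ((1 : ℝ), (0 : ℝ)) t :=
      (hasDerivAt_id t).prodMk (hasDerivAt_const t a)
    have h3 := h1.comp_hasDerivAt t h2
    have h4 : (p t a • ContinuousLinearMap.fst ℝ ℝ ℝ +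
        (p t a * k t a) • ContinuousLinearMap.snd ℝ ℝ ℝ) ((1 : ℝ), (0 : ℝ)) = p t a := by
      simp
    rw [h4] at h3
    exact h3
  exact strictMono_of_hasDerivAt_pos hd fun t => h.ppos t a ha

/-- the transport is strictly increasing in the second variable -/
theorem mono_a {f : ℝ → ℝ} {l C : ℝ} {T p k : ℝ → ℝ → ℝ} (h : TM f l C T p k) (t : ℝ) :
    StrictMonoOn (fun a => T t a) (Ioo (-l) l) := by
  have hd : ∀ a ∈ Ioo (-l) l, HasDerivAt (fun a => T t a) (p t a * k t a) a := by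
    intro a ha
    have h1 := h.der t a (abs_lt.2 ha)
    have h2 : HasDerivAt (fun a : ℝ => ((t, a) : ℝ × ℝ)) ((0 : ℝ), (1 : ℝ)) a :=
      (hasDerivAt_const a t).prodMk (hasDerivAt_id a)
    have h3 := h1.comp_hasDerivAt a h2
    have h4 : (p t a • ContinuousLinearMap.fst ℝ ℝ ℝ +
        (p t a * k t a) • ContinuousLinearMap.snd ℝ ℝ ℝ) ((0 : ℝ), (1 : ℝ)) =
        p t a * k t a := by
      simp
    rw [h4] at h3
    exact h3
  refine strictMonoOn_of_deriv_pos (convex_Ioo _ _)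
    (fun a ha => (hd a ha).continuousAt.continuousWithinAt) fun a ha => ?_
  rw [interior_Ioo] at ha
  rw [(hd a ha).deriv]
  exact mul_pos (h.ppos t a (abs_lt.2 ha)) (h.kpos t a (abs_lt.2 ha))

/-- monotonicity for pairs of arguments -/
theorem pair_ineq {f : ℝ → ℝ} {l C : ℝ} {T p k : ℝ → ℝ → ℝ} (h : TM f l C T p k)
    {t t' a a' : ℝ} (ha : |a| < l) (ha' : |a'| < l) (heq : T t a = T t' a') :
    (t - t') * (a - a') ≤ 0 ∧ ((t - t') * (a - a') = 0 → t = t' ∧ a = a') := by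
  have m1 := mono_t h ha
  have m2 := mono_a h t
  have m1' := mono_t h ha'
  rcases lt_trichotomy a a' with hlt | he | hgt
  · have h1 : T t a < T t a' := m2 (abs_lt.1 ha) (abs_lt.1 ha') hlt
    rw [heq] at h1
    have h2 : t' < t := m1'.lt_iff_lt.1 h1
    have h3 : (t - t') * (a - a') < 0 := mul_neg_of_pos_of_neg (by linarith) (by linarith)
    exact ⟨h3.le, fun h4 => absurd h4 h3.ne⟩
  · subst he
    have h1 : t = t' := m1.injective heq
    subst h1
    exact ⟨by simp, fun _ => ⟨rfl, rfl⟩⟩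
  · have h1 : T t a' < T t a := m2 (abs_lt.1 ha') (abs_lt.1 ha) hgt
    rw [heq] at h1
    have h2 : t < t' := m1'.lt_iff_lt.1 h1
    have h3 : (t - t') * (a - a') < 0 := mul_neg_of_neg_of_pos (by linarith) (by linarith)
    exact ⟨h3.le, fun h4 => absurd h4 h3.ne⟩

section

variable {ι : Type} [Fintype ι] {d : ℕ} {l C : ℝ} {f : ι → ℝ → ℝ} {T p k : ι → ℝ → ℝ → ℝ}

theorem PhT_apply (T : ι → ℝ → ℝ → ℝ) (M : Eu (Fin d) →ₗᵢ[ℝ] Eu ι) (w : Eu ι) (i : ι) :
    PhT T M w i = T i ((w - prj M w) i) (prj M w i) := rfl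

theorem inj (hT : ∀ i, TM (f i) l C (T i) (p i) (k i)) (M : Eu (Fin d) →ₗᵢ[ℝ] Eu ι) :
    InjOn (PhT T M) {w | ∀ i, |prj M w i| < l} := by
  intro w hw w' hw' heq
  have hi : ∀ i, T i ((w - prj M w) i) (prj M w i) = T i ((w' - prj M w') i) (prj M w' i) := by
    intro i
    exact congrArg (fun z : Eu ι => z i) heq
  have hp := fun i => pair_ineq (hT i) (hw i) (hw' i) (hi i)
  have h0 : ⟪(w - prj M w) - (w' - prj M w'), prj M w - prj M w'⟫_ℝ = 0 := by
    have e : (w - prj M w) - (w' - prj M w') = (w - w') - prj M (w - w') := by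
      rw [prj_sub]; abel
    rw [e, ← prj_sub]
    exact inner_sub_prj M _ _
  rw [inner_eq_sum] at h0
  have h1 : ∑ i, -(((w - prj M w) i - (w' - prj M w') i) * (prj M w i - prj M w' i)) = 0 := by
    rw [Finset.sum_neg_distrib, neg_eq_zero]
    exact h0
  have h2 := (Finset.sum_eq_zero_iff_of_nonneg fun i _ => by
    have := (hp i).1
    linarith).1 h1
  ext i
  have h3 := h2 i (Finset.mem_univ i)
  obtain ⟨h4, h5⟩ := (hp i).2 (neg_eq_zero.1 h3)
  have e1 : (w - prj M w) i = w i - prj M w i := rfl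
  have e2 : (w' - prj M w') i = w' i - prj M w' i := rfl
  rw [e1, e2, h5] at h4
  linarith

variable [DecidableEq ι]

/-- the matrix of the derivative -/
noncomputable def Jm (p k : ι → ℝ → ℝ → ℝ) (M : Eu (Fin d) →ₗᵢ[ℝ] Eu ι) (w : Eu ι) :
    Matrix ι ι ℝ :=
  Matrix.diagonal (fun i => p i ((w - prj M w) i) (prj M w i)) *
    (1 + Matrix.diagonal (fun i => k i ((w - prj M w) i) (prj M w i) - 1) * mat M *
      (mat M).transpose)

/-- the derivative -/
noncomputable def Dm (p k : ι → ℝ → ℝ → ℝ) (M : Eu (Fin d) →ₗᵢ[ℝ] Eu ι) (w : Eu ι) :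
    Eu ι →L[ℝ] Eu ι :=
  LinearMap.toContinuousLinearMap (Matrix.toLpLin 2 2 (Jm p k M w))

theorem Dm_apply (p k : ι → ℝ → ℝ → ℝ) (M : Eu (Fin d) →ₗᵢ[ℝ] Eu ι) (w v : Eu ι) (i : ι) :
    Dm p k M w v i = p i ((w - prj M w) i) (prj M w i) * ((v i - prj M v i) +
      k i ((w - prj M w) i) (prj M w i) * prj M v i) := by
  have h1 : Dm p k M w v i = ((Jm p k M w).mulVec v.ofLp) i := rfl
  rw [h1, Jm, ← Matrix.mulVec_mulVec, Matrix.mulVec_diagonal, Matrix.add_mulVec,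
    Matrix.one_mulVec, Matrix.mul_assoc, ← Matrix.mulVec_mulVec, Pi.add_apply,
    Matrix.mulVec_diagonal, ← prj_coord]
  ring

theorem det_Jm (p k : ι → ℝ → ℝ → ℝ) (M : Eu (Fin d) →ₗᵢ[ℝ] Eu ι) (w : Eu ι) :
    (Jm p k M w).det = (∏ i, p i ((w - prj M w) i) (prj M w i)) *
      ((mat M).transpose * Matrix.diagonal (fun i => k i ((w - prj M w) i) (prj M w i)) *
        mat M).det := by
  rw [Jm, Matrix.det_mul, Matrix.det_diagonal, Matrix.det_one_add_mul_comm]
  congr 2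
  have h1 : Matrix.diagonal (fun i => k i ((w - prj M w) i) (prj M w i) - 1) =
      Matrix.diagonal (fun i => k i ((w - prj M w) i) (prj M w i)) - 1 := by
    rw [← Matrix.diagonal_one, Matrix.diagonal_sub]
  rw [h1, Matrix.sub_mul, Matrix.one_mul, Matrix.mul_sub, ATA, Matrix.mul_assoc]
  abel

theorem det_Dm (p k : ι → ℝ → ℝ → ℝ) (M : Eu (Fin d) →ₗᵢ[ℝ] Eu ι) (w : Eu ι) :
    (Dm p k M w).det = (Jm p k M w).det := by
  unfold Dm
  rw [LinearMap.det_toContinuousLinearMap, Matrix.toLpLin_eq_toLin, LinearMap.det_toLin]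

theorem hder (hT : ∀ i, TM (f i) l C (T i) (p i) (k i)) (M : Eu (Fin d) →ₗᵢ[ℝ] Eu ι)
    {w : Eu ι} (hw : ∀ i, |prj M w i| < l) : HasFDerivAt (PhT T M) (Dm p k M w) w := by
  rw [← hasFDerivWithinAt_univ, hasFDerivWithinAt_euclidean]
  intro i
  rw [hasFDerivWithinAt_univ]
  have hP : HasFDerivAt (fun w : Eu ι => prj M w i)
      ((PiLp.proj 2 (fun _ : ι => ℝ) i : Eu ι →L[ℝ] ℝ) ∘L Pc M) w := by
    have h := ((PiLp.proj 2 (fun _ : ι => ℝ) i : Eu ι →L[ℝ] ℝ) ∘L Pc M).hasFDerivAt (x := w)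
    refine h.congr_of_eventuallyEq (Filter.Eventually.of_forall fun x => ?_)
    change prj M x i = Pc M x i
    rw [Pc_apply]
  have hI : HasFDerivAt (fun w : Eu ι => w i)
      ((PiLp.proj 2 (fun _ : ι => ℝ) i : Eu ι →L[ℝ] ℝ)) w :=
    ((PiLp.proj 2 (fun _ : ι => ℝ) i : Eu ι →L[ℝ] ℝ)).hasFDerivAt
  set c : Eu ι → ℝ × ℝ := fun x => (x i - prj M x i, prj M x i) with hcdef
  have hc : HasFDerivAt c (((PiLp.proj 2 (fun _ : ι => ℝ) i : Eu ι →L[ℝ] ℝ) -
      ((PiLp.proj 2 (fun _ : ι => ℝ) i : Eu ι →L[ℝ] ℝ) ∘L Pc M)).prod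
      ((PiLp.proj 2 (fun _ : ι => ℝ) i : Eu ι →L[ℝ] ℝ) ∘L Pc M)) w := (hI.sub hP).prodMk hP
  have hg : HasFDerivAt (fun z : ℝ × ℝ => T i z.1 z.2)
      ((p i ((w - prj M w) i) (prj M w i)) • ContinuousLinearMap.fst ℝ ℝ ℝ +
      (p i ((w - prj M w) i) (prj M w i) * k i ((w - prj M w) i) (prj M w i)) •
        ContinuousLinearMap.snd ℝ ℝ ℝ) (c w) :=
    (hT i).der ((w - prj M w) i) (prj M w i) (hw i)
  have he : HasFDerivAt (fun x : Eu ι => PhT T M x i) _ w := hg.comp w hc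
  refine he.congr_fderiv ?_
  ext v
  have h1 : (PiLp.proj 2 (fun _ : ι => ℝ) i ∘L Dm p k M w) v = Dm p k M w v i := rfl
  rw [h1, Dm_apply]
  have h3 : Pc M v i = prj M v i := by rw [Pc_apply]
  simp only [_root_.add_apply, _root_.smul_apply,
    _root_.neg_apply, _root_.sub_apply, ContinuousLinearMap.comp_apply,
    PiLp.proj_apply, h3, smul_eq_mul, Function.comp_apply, ContinuousLinearMap.prod_apply,
    ContinuousLinearMap.coe_fst', ContinuousLinearMap.coe_snd']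
  ring

end

theorem jacr : S_JACR := by
  intro ι _ _ d l C f T p k hT M W hW hWl F
  rw [lintegral_image_eq_lintegral_abs_det_fderiv_mul volume hW
    (fun w hw => (hder hT M (hWl w hw)).hasFDerivWithinAt) ((inj hT M).mono hWl) F]
  refine lintegral_congr fun w => ?_
  rw [det_Dm, det_Jm]

end Pool.Agent.Y809.RG
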